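import Pool.Agent.H475Z.TF.Main

/-!
For every choice of the data, the shifted TFDW energy `E_α(λ)` is finite, tends to `+∞` as
`λ → ∞`, and hence is not nonincreasing on `[0, ∞)`.
-/

open Filter Topology

namespace Pool.Agent.Results.MP_8b3296_mp.ANeverMonotone

open Pool.Agent.H475Z.TF

theorem result (A γ Ce p : ℝ) (hA : 0 < A) (hγ : 0 < γ) (hCe : 0 < Ce) (hp : 4 / 3 < p)
    (k : ℕ) (hk : 1 ≤ k) (z : Fin k → ℝ) (R : Fin k → R3) (hz : ∀ j, 0 < z j)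
    (_hR : Function.Injective R) :
    (∀ lam, 0 ≤ lam → ∃ e : ℝ, Ealpha A γ Ce p z R lam = e) ∧
    Tendsto (Ealpha A γ Ce p z R) atTop (𝓝 ⊤) ∧
    ¬ AntitoneOn (Ealpha A γ Ce p z R) (Set.Ici 0) :=
  main A γ Ce p hA hγ hCe hp k hk z R hz

end Pool.Agent.Results.MP_8b3296_mp.ANeverMonotone
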